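import Pool.Agent.helper73.SHL.Spec

/-! Row KTU: a commuting element. -/

set_option autoImplicit false

namespace Pool.Agent.SHL

open Matrix Module Pool.Agent.PR

section aux

variable {V : Type} [AddCommGroup V] [Module ℚ V]

theorem KTU_natpow {Q : Type} [Group Q] (ρ : Q →* Module.End ℚ V) (x : Q)
    (h : (ρ x - 1) * (ρ x - 1) = 0) (n : ℕ) : ρ (x ^ n) = 1 + (n : ℚ) • (ρ x - 1) := by
  induction n with
  | zero => simp
  | succ n ih =>
    have h1 : ρ x = 1 + (ρ x - 1) := by abel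
    rw [pow_succ, map_mul, ih]
    conv_lhs => rw [h1]
    generalize ρ x - 1 = Y at h ih
    rw [add_sub_cancel_left, mul_add, mul_one, add_mul, one_mul, smul_mul_assoc, h, smul_zero,
      add_zero]
    push_cast
    rw [add_smul, one_smul]
    abel

theorem KTU_zpow {Q : Type} [Group Q] (ρ : Q →* Module.End ℚ V) (x : Q)
    (h : (ρ x - 1) * (ρ x - 1) = 0) (m : ℤ) : ρ (x ^ m) = 1 + (m : ℚ) • (ρ x - 1) := by
  cases m with
  | ofNat n =>
    have := KTU_natpow ρ x h n
    simpa using this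
  | negSucc n =>
    have h2 := KTU_natpow ρ x h (n + 1)
    have h3 : ρ (x ^ (Int.negSucc n)) * ρ (x ^ (n + 1)) = 1 := by
      rw [← map_mul, zpow_negSucc, inv_mul_cancel, map_one]
    set Y := ρ x - 1 with hY
    have h4 : ρ (x ^ (n + 1)) * (1 - ((n + 1 : ℕ) : ℚ) • Y) = 1 := by
      rw [h2, mul_sub, mul_one, add_mul, one_mul, smul_mul_assoc, mul_smul_comm, h, smul_zero,
        smul_zero, add_zero, add_sub_cancel_right]
    have h5 : ρ (x ^ (Int.negSucc n)) = 1 - ((n + 1 : ℕ) : ℚ) • Y := by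
      calc ρ (x ^ (Int.negSucc n)) = ρ (x ^ (Int.negSucc n)) *
            (ρ (x ^ (n + 1)) * (1 - ((n + 1 : ℕ) : ℚ) • Y)) := by rw [h4, mul_one]
        _ = 1 - ((n + 1 : ℕ) : ℚ) • Y := by rw [← mul_assoc, h3, one_mul]
    rw [h5, Int.cast_negSucc, neg_smul, sub_eq_add_neg]

theorem KTU_aeval_left (A Z : Module.End ℚ V) (α : ℚ) (h : A * Z = α • Z)
    (p : Polynomial ℤ) : Polynomial.aeval A p * Z = (Polynomial.aeval α p) • Z := by
  have hp : ∀ n : ℕ, A ^ n * Z = (α ^ n) • Z := by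
    intro n
    induction n with
    | zero => simp
    | succ n ih => rw [pow_succ, mul_assoc, h, mul_smul_comm, ih, smul_smul, pow_succ, mul_comm α]
  induction p using Polynomial.induction_on' with
  | add p q hp hq => rw [map_add, map_add, add_mul, hp, hq, add_smul]
  | monomial n a =>
    rw [Polynomial.aeval_monomial, Polynomial.aeval_monomial, mul_assoc, hp, mul_smul_comm,
      mul_smul, smul_comm]
    congr 1
    ext w
    simp only [Module.End.mul_apply, LinearMap.smul_apply]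
    simp [Int.cast_smul_eq_zsmul]

theorem KTU_aeval_right (A Z : Module.End ℚ V) (α : ℚ) (h : Z * A = α • Z)
    (p : Polynomial ℤ) : Z * Polynomial.aeval A p = (Polynomial.aeval α p) • Z := by
  have hp : ∀ n : ℕ, Z * A ^ n = (α ^ n) • Z := by
    intro n
    induction n with
    | zero => simp
    | succ n ih => rw [pow_succ', ← mul_assoc, h, smul_mul_assoc, ih, smul_smul, pow_succ']
  induction p using Polynomial.induction_on' with
  | add p q hp hq => rw [map_add, map_add, mul_add, hp, hq, add_smul]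
  | monomial n a =>
    rw [Polynomial.aeval_monomial, Polynomial.aeval_monomial, mul_smul, ← hp n]
    ext w
    simp [Int.cast_smul_eq_zsmul]

theorem KTU_int_left (A Z : Module.End ℚ V) (α : ℚ) (hZ : Z ≠ 0) (h : A * Z = α • Z)
    (hA : IsIntegral ℤ A) : IsIntegral ℤ α := by
  obtain ⟨p, hp, hpA⟩ := hA
  refine ⟨p, hp, ?_⟩
  have h1 := KTU_aeval_left A Z α h p
  rw [show Polynomial.aeval A p = 0 from hpA, zero_mul] at h1
  exact (smul_eq_zero.1 h1.symm).resolve_right hZ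

theorem KTU_int_right (A Z : Module.End ℚ V) (α : ℚ) (hZ : Z ≠ 0) (h : Z * A = α • Z)
    (hA : IsIntegral ℤ A) : IsIntegral ℤ α := by
  obtain ⟨p, hp, hpA⟩ := hA
  refine ⟨p, hp, ?_⟩
  have h1 := KTU_aeval_right A Z α h p
  rw [show Polynomial.aeval A p = 0 from hpA, mul_zero] at h1
  exact (smul_eq_zero.1 h1.symm).resolve_right hZ

theorem KTU_pm (α : ℚ) (h0 : α ≠ 0) (h1 : IsIntegral ℤ α) (h2 : IsIntegral ℤ α⁻¹) :
    α * α = 1 := by
  obtain ⟨a, ha⟩ := IsIntegrallyClosed.isIntegral_iff.1 h1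
  obtain ⟨b, hb⟩ := IsIntegrallyClosed.isIntegral_iff.1 h2
  have ha' : (a : ℚ) = α := by simpa using ha
  have hb' : (b : ℚ) = α⁻¹ := by simpa using hb
  have h3 : a * b = 1 := by
    have : (a : ℚ) * b = 1 := by rw [ha', hb', mul_inv_cancel₀ h0]
    exact_mod_cast this
  have h4 : a * a = 1 := by
    rcases Int.isUnit_iff.1 (IsUnit.of_mul_eq_one _ h3) with h | h <;> rw [h] <;> norm_num
  rw [← ha']
  exact_mod_cast h4

end aux

theorem KTU (hHA : HA_stmt) : KTU_stmt := by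
  intro V _ _ _ Q _ ρ hinj hint G₁ L hL hHi z hz hzL hzV hrk
  by_contra hne
  push Not at hne
  have h5 := (hHA Q).2.2.2.2.1
  set Z := ρ z - 1 with hZ
  have hρinv : ∀ g, ρ g * ρ g⁻¹ = 1 := fun g => by rw [← map_mul, mul_inv_cancel, map_one]
  have hρinv' : ∀ g, ρ g⁻¹ * ρ g = 1 := fun g => by rw [← map_mul, inv_mul_cancel, map_one]
  have hZ0 : Z ≠ 0 := by
    intro h
    rw [h, LinearMap.range_zero, finrank_bot] at hrk
    omega
  -- `Z` has image in `L` and kills `L`
  have hZL : ∀ w ∈ L, Z w = 0 := fun w hw => by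
    show ρ z w - w = 0
    rw [hzL w hw, sub_self]
  have hZV : ∀ v, Z v ∈ L := hzV
  have hZZ : Z * Z = 0 := by
    ext w
    show Z (Z w) = 0
    exact hZL _ (hZV w)
  obtain ⟨v, hv0, hv⟩ := finrank_eq_one_iff'.1 hrk
  have hv0' : (v : V) ≠ 0 := fun h => hv0 (Subtype.ext h)
  have hvs : ∀ w, ∃ a : ℚ, Z w = a • (v : V) := by
    intro w
    obtain ⟨a, ha⟩ := hv ⟨Z w, LinearMap.mem_range_self Z w⟩
    exact ⟨a, (congrArg Subtype.val ha).symm⟩
  obtain ⟨w₀, hw₀⟩ := v.2
  -- the main claim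
  have main : ∀ g ∈ G₁, z * (g ^ 2) = (g ^ 2) * z := by
    intro g hg
    set Z' := ρ g * Z * ρ g⁻¹ with hZ'
    have hx : ρ (g * z * g⁻¹) - 1 = Z' := by
      rw [hZ', hZ, map_mul, map_mul, mul_sub, sub_mul, mul_one, hρinv]
    have hZ'L : ∀ w ∈ L, Z' w = 0 := fun w hw => by
      show ρ g (Z (ρ g⁻¹ w)) = 0
      rw [hZL _ (hL g⁻¹ (G₁.inv_mem hg) w hw), map_zero]
    have hZ'V : ∀ v, Z' v ∈ L := fun v => hL g hg _ (hZV _)
    have h1 : Z * Z' = 0 := by
      ext w
      exact hZL _ (hZ'V w)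
    have h2 : Z' * Z = 0 := by
      ext w
      exact hZ'L _ (hZV w)
    have h3 : Z' * Z' = 0 := by
      ext w
      exact hZ'L _ (hZ'V w)
    have hzx : z * (g * z * g⁻¹) = (g * z * g⁻¹) * z := by
      apply hinj
      have e1 : ρ z = 1 + Z := by rw [hZ]; abel
      have e2 : ρ (g * z * g⁻¹) = 1 + Z' := by rw [← hx]; abel
      rw [map_mul ρ z, map_mul ρ (g * z * g⁻¹), e1, e2]
      simp only [mul_add, add_mul, h1, h2, mul_one, one_mul, add_zero]
      abel
    obtain ⟨k, hk, m, hkm⟩ := hne _ hzx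
    have e3 := KTU_natpow ρ (g * z * g⁻¹) (by rw [hx]; exact h3) k
    have e4 := KTU_zpow ρ z hZZ m
    rw [hkm, e4, hx] at e3
    have e5 : (m : ℚ) • Z = (k : ℚ) • Z' := add_left_cancel e3
    have hk' : (k : ℚ) ≠ 0 := by exact_mod_cast hk.ne'
    have e6 : Z' = ((m : ℚ) / k) • Z := by
      rw [div_eq_inv_mul, mul_smul, e5, smul_smul, inv_mul_cancel₀ hk', one_smul]
    set c : ℚ := (m : ℚ) / k with hc
    have e7 : ρ g * Z = c • (Z * ρ g) := by
      calc ρ g * Z = Z' * ρ g := by rw [hZ', mul_assoc, hρinv', mul_one]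
        _ = c • (Z * ρ g) := by rw [e6, smul_mul_assoc]
    have hc0 : c ≠ 0 := by
      intro h
      rw [h, zero_smul] at e7
      apply hZ0
      calc Z = ρ g⁻¹ * (ρ g * Z) := by rw [← mul_assoc, hρinv', one_mul]
        _ = 0 := by rw [e7, mul_zero]
    -- the eigenvalue on `v`
    obtain ⟨α', hα'⟩ := hvs (ρ g w₀)
    have hα : ρ g (v : V) = (c * α') • (v : V) := by
      have := congrArg (fun f : Module.End ℚ V => f w₀) e7
      simp only [Module.End.mul_apply, LinearMap.smul_apply] at this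
      rw [← hw₀, this, hα', smul_smul, hw₀]
    set α := c * α' with hαdef
    have hl : ρ g * Z = α • Z := by
      ext w
      obtain ⟨a, ha⟩ := hvs w
      show ρ g (Z w) = α • Z w
      rw [ha, map_smul, hα, smul_comm]
    have hr : Z * ρ g = (α / c) • Z := by
      have : c • (Z * ρ g) = α • Z := by rw [← e7, hl]
      rw [div_eq_inv_mul, mul_smul, ← this, smul_smul, inv_mul_cancel₀ hc0, one_smul]
    have hα0 : α ≠ 0 := by
      intro h
      rw [h, zero_smul] at hl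
      apply hZ0
      calc Z = ρ g⁻¹ * (ρ g * Z) := by rw [← mul_assoc, hρinv', one_mul]
        _ = 0 := by rw [hl, mul_zero]
    have hβ0 : α / c ≠ 0 := div_ne_zero hα0 hc0
    have hl' : ρ g⁻¹ * Z = α⁻¹ • Z := by
      have : Z = α • (ρ g⁻¹ * Z) := by
        rw [← mul_smul_comm, ← hl, ← mul_assoc, hρinv', one_mul]
      conv_rhs => rw [this]
      rw [smul_smul, inv_mul_cancel₀ hα0, one_smul]
    have hr' : Z * ρ g⁻¹ = (α / c)⁻¹ • Z := by
      have : Z = (α / c) • (Z * ρ g⁻¹) := by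
        rw [← smul_mul_assoc, ← hr, mul_assoc, hρinv, mul_one]
      conv_rhs => rw [this]
      rw [smul_smul, inv_mul_cancel₀ hβ0, one_smul]
    have q1 : α * α = 1 := KTU_pm α hα0 (KTU_int_left _ _ _ hZ0 hl (hint g))
      (KTU_int_left _ _ _ hZ0 hl' (hint g⁻¹))
    have q2 : (α / c) * (α / c) = 1 := KTU_pm (α / c) hβ0 (KTU_int_right _ _ _ hZ0 hr (hint g))
      (KTU_int_right _ _ _ hZ0 hr' (hint g⁻¹))
    have r1 : ρ (g ^ 2) * Z = Z := by
      rw [pow_two, map_mul, mul_assoc, hl, mul_smul_comm, hl, smul_smul, q1, one_smul]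
    have r2 : Z * ρ (g ^ 2) = Z := by
      rw [pow_two, map_mul, ← mul_assoc, hr, smul_mul_assoc, hr, smul_smul, q2, one_smul]
    apply hinj
    have e1 : ρ z = 1 + Z := by rw [hZ]; abel
    rw [map_mul, map_mul, e1, add_mul, mul_add, one_mul, mul_one, r1, r2]
  have hall : ∀ x ∈ G₁, ∃ j : ℕ, 0 < j ∧ ∃ m : ℤ, x ^ j = z ^ m := by
    intro x hx
    obtain ⟨k, hk, m, hkm⟩ := hne _ (main x hx)
    exact ⟨2 * k, by omega, m, by rw [pow_mul, hkm]⟩
  have := h5 2 G₁ z hall hHi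
  omega

end Pool.Agent.SHL
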